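import Pool.Agent.Helper65.EV.St

/-!
# Project EV, module U: the mean level after one step
-/

set_option autoImplicit false

open MeasureTheory ProbabilityTheory Set Filter
open scoped ENNReal Topology
open Pool.Agent.Helper84.Eve
open Pool.Agent.Helper65.EV

namespace Pool.Agent.Helper27.EV

/-- number of non-participants below `i` -/
private def zz (K : Finset ℕ) (i : ℕ) : ℕ := (Finset.range i \ K).card

/-- levels `i < n` with at most `a` non-participants below, plus the expected number of the later ones -/
private noncomputable def Ph (u : ℝ) (a n : ℕ) (K : Finset ℕ) : ℝ :=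
  (((Finset.range n).filter fun i => zz K i ≤ a).card : ℝ) + ((a + 1 - zz K n : ℕ) : ℝ) / (1 - u)

private lemma zz_succ_not {K : Finset ℕ} {n : ℕ} (h : n ∉ K) : zz K (n + 1) = zz K n + 1 := by
  unfold zz
  rw [Finset.range_add_one, Finset.insert_sdiff_of_notMem _ h, Finset.card_insert_of_notMem (by simp)]

private lemma zz_insert {K : Finset ℕ} {n i : ℕ} (h : i ≤ n) : zz (insert n K) i = zz K i := by
  unfold zz
  congr 1
  ext j
  simp only [Finset.mem_sdiff, Finset.mem_range, Finset.mem_insert]
  constructor
  · rintro ⟨h1, h2⟩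
    exact ⟨h1, fun h3 => h2 (Or.inr h3)⟩
  · rintro ⟨h1, h2⟩
    refine ⟨h1, ?_⟩
    rintro (h3 | h3)
    · omega
    · exact h2 h3

private lemma zz_succ_insert {K : Finset ℕ} {n : ℕ} : zz (insert n K) (n + 1) = zz K n := by
  rw [← zz_insert (le_refl n)]
  unfold zz
  rw [Finset.range_add_one, Finset.insert_sdiff_of_mem _ (Finset.mem_insert_self n K)]

private lemma step (u : ℝ) (hu : u < 1) (a n : ℕ) (K : Finset ℕ) (hK : n ∉ K) :
    (1 - u) * Ph u a (n + 1) K + u * Ph u a (n + 1) (insert n K) = Ph u a n K := by
  have h1 : (1 - u) ≠ 0 := by linarith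
  have e1 : ((Finset.range (n + 1)).filter fun i => zz (insert n K) i ≤ a) =
      (Finset.range (n + 1)).filter fun i => zz K i ≤ a := by
    refine Finset.filter_congr fun i hi => ?_
    rw [zz_insert (by rw [Finset.mem_range] at hi; omega)]
  unfold Ph
  rw [e1, zz_succ_not hK, zz_succ_insert]
  by_cases h : zz K n ≤ a
  · have e2 : ((Finset.range (n + 1)).filter fun i => zz K i ≤ a).card =
        ((Finset.range n).filter fun i => zz K i ≤ a).card + 1 := by
      rw [Finset.range_add_one, Finset.filter_insert, if_pos h, Finset.card_insert_of_notMem (by simp)]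
    obtain ⟨r, hr⟩ := Nat.exists_eq_add_of_le h
    have e3 : a + 1 - zz K n = r + 1 := by omega
    have e4 : a + 1 - (zz K n + 1) = r := by omega
    rw [e2, e3, e4]
    push_cast
    field_simp
    ring
  · have e2 : ((Finset.range (n + 1)).filter fun i => zz K i ≤ a).card =
        ((Finset.range n).filter fun i => zz K i ≤ a).card := by
      rw [Finset.range_add_one, Finset.filter_insert, if_neg h]
    have e3 : a + 1 - zz K n = 0 := by omega
    have e4 : a + 1 - (zz K n + 1) = 0 := by omega
    rw [e2, e3, e4]
    push_cast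
    ring

private lemma total (u : ℝ) (hu : u < 1) (a n : ℕ) :
    ∑ κ ∈ (Finset.range n).powerset, u ^ κ.card * (1 - u) ^ (n - κ.card) * Ph u a n κ = ((a : ℝ) + 1) / (1 - u) := by
  induction n with
  | zero =>
    simp [Ph, zz]
  | succ n ih =>
    rw [Finset.range_add_one, Finset.sum_powerset_insert (by simp), ← Finset.sum_add_distrib, ← ih]
    refine Finset.sum_congr rfl fun κ hκ => ?_
    rw [Finset.mem_powerset] at hκ
    have hn : n ∉ κ := fun h => by simpa using hκ h
    have hc : κ.card ≤ n := by
      have := Finset.card_le_card hκ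
      rwa [Finset.card_range] at this
    rw [← step u hu a n κ hn, Finset.card_insert_of_notMem hn]
    have e1 : n + 1 - κ.card = n - κ.card + 1 := by omega
    have e2 : n + 1 - (κ.card + 1) = n - κ.card := by omega
    rw [e1, e2]
    ring

private lemma zz_le_of_le_pos {K : Finset ℕ} {a i : ℕ} (h : i ≤ pos K a) : zz K i ≤ a := by
  rcases Nat.eq_zero_or_pos i with h0 | h0
  · subst h0
    simp [zz]
  · obtain ⟨j, rfl⟩ : ∃ j, i = j + 1 := ⟨i - 1, by omega⟩
    have h1 : low K j < a := lt_pos_iff.1 (by omega)
    have h2 : zz K (j + 1) + cnt K j = j + 1 := by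
      have h3 : cnt K j = (Finset.range (j + 1) ∩ K).card := by
        unfold cnt
        congr 1
        ext x
        simp only [Finset.mem_filter, Finset.mem_inter, Finset.mem_range]
        constructor
        · rintro ⟨h4, h5⟩
          exact ⟨by omega, h4⟩
        · rintro ⟨h4, h5⟩
          exact ⟨h5, by omega⟩
      rw [h3]
      unfold zz
      rw [Finset.card_sdiff_add_card_inter, Finset.card_range]
    unfold low at h1
    omega

private lemma pos_le_Ph (u : ℝ) (hu0 : 0 ≤ u) (hu : u < 1) (a n : ℕ) (K : Finset ℕ) (hK : K ⊆ Finset.range n) :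
    ((pos K a : ℝ) + 1) ≤ Ph u a n K := by
  have h1 : pos K a + 1 ≤ ((Finset.range n).filter fun i => zz K i ≤ a).card + (a + 1 - zz K n) := by
    by_cases hp : pos K a < n
    · have h2 : Finset.range (pos K a + 1) ⊆ (Finset.range n).filter fun i => zz K i ≤ a := by
        intro i hi
        rw [Finset.mem_range] at hi
        rw [Finset.mem_filter, Finset.mem_range]
        exact ⟨by omega, zz_le_of_le_pos (by omega)⟩
      have h3 := Finset.card_le_card h2
      rw [Finset.card_range] at h3
      omega
    · have h2 : (Finset.range n).filter (fun i => zz K i ≤ a) = Finset.range n := by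
        refine Finset.filter_true_of_mem fun i hi => ?_
        rw [Finset.mem_range] at hi
        exact zz_le_of_le_pos (by omega)
      have h3 : zz K (pos K a) ≤ a := zz_le_of_le_pos le_rfl
      have h4 : ∀ m, zz K (n + m) = zz K n + m := by
        intro m
        induction m with
        | zero => rfl
        | succ m ih =>
          have h5 : n + m ∉ K := fun h => by
            have := hK h
            rw [Finset.mem_range] at this
            omega
          rw [← add_assoc, zz_succ_not h5, ih]
          ring
      obtain ⟨m, hm⟩ := Nat.exists_eq_add_of_le (not_lt.1 hp)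
      have h5 := h4 m
      rw [← hm] at h5
      rw [h2, Finset.card_range]
      omega
  have h2 : ((pos K a : ℝ) + 1) ≤
      (((Finset.range n).filter fun i => zz K i ≤ a).card : ℝ) + ((a + 1 - zz K n : ℕ) : ℝ) := by
    exact_mod_cast h1
  refine h2.trans ?_
  unfold Ph
  have h3 : (0 : ℝ) ≤ ((a + 1 - zz K n : ℕ) : ℝ) := Nat.cast_nonneg _
  have h4 : ((a + 1 - zz K n : ℕ) : ℝ) ≤ ((a + 1 - zz K n : ℕ) : ℝ) / (1 - u) := by
    rw [le_div_iff₀ (by linarith)]
    nlinarith
  linarith

theorem hU : hU := by
  intro u hu0 hu n a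
  rw [← total u hu a n]
  refine Finset.sum_le_sum fun κ hκ => ?_
  rw [Finset.mem_powerset] at hκ
  refine mul_le_mul_of_nonneg_left (pos_le_Ph u hu0 hu a n κ hκ) ?_
  have h1 : 0 ≤ 1 - u := by linarith
  positivity

end Pool.Agent.Helper27.EV
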